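import Pool.Agent.helper90.DL.ERD1

/-! # Project dl, module ERD: the Cauchy transform of a Hoelder continuous density -/

namespace Pool.Agent.DL

open Matrix Complex MeasureTheory Set Filter Topology
open scoped ComplexOrder Manifold ContDiff ComplexConjugate

noncomputable section

/-- the truncated kernel -/
def ERD_k (ε : ℝ) (w : ℂ) : ℂ := conj w ^ 2 / ((max ‖w‖ ε : ℝ) : ℂ) ^ 4

theorem ERD_kmax {ε : ℝ} (hε : 0 < ε) (w : ℂ) : 0 < max ‖w‖ ε := lt_of_lt_of_le hε (le_max_right _ _)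

theorem ERD_k_norm {ε : ℝ} (hε : 0 < ε) (w : ℂ) :
    ‖ERD_k ε w‖ = ‖w‖ ^ 2 / (max ‖w‖ ε) ^ 4 := by
  rw [ERD_k, norm_div, norm_pow, norm_pow, RCLike.norm_conj, Complex.norm_real,
    Real.norm_of_nonneg (ERD_kmax hε w).le]

theorem ERD_k_cont {ε : ℝ} (hε : 0 < ε) : Continuous (ERD_k ε) := by
  unfold ERD_k
  refine Continuous.div (Complex.continuous_conj.pow 2) ?_ ?_
  · exact (Complex.continuous_ofReal.comp (continuous_norm.max continuous_const)).pow 4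
  · intro w
    exact pow_ne_zero _ (Complex.ofReal_ne_zero.2 (ERD_kmax hε w).ne')

theorem ERD_k_bd {ε : ℝ} (hε : 0 < ε) (w : ℂ) : ‖ERD_k ε w‖ ≤ (ε ^ 2)⁻¹ := by
  rw [ERD_k_norm hε, div_le_iff₀ (pow_pos (ERD_kmax hε w) 4), inv_mul_eq_div,
    le_div_iff₀ (by positivity)]
  have h1 : ‖w‖ ≤ max ‖w‖ ε := le_max_left _ _
  have h2 : ε ≤ max ‖w‖ ε := le_max_right _ _
  calc ‖w‖ ^ 2 * ε ^ 2 ≤ (max ‖w‖ ε) ^ 2 * (max ‖w‖ ε) ^ 2 := by gcongr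
    _ = (max ‖w‖ ε) ^ 4 := by ring

theorem ERD_k_eq {ε : ℝ} (hε : 0 < ε) {w : ℂ} (h : ε ≤ ‖w‖) : ERD_k ε w = (w ^ 2)⁻¹ := by
  have hw : w ≠ 0 := by
    intro h0
    rw [h0, norm_zero] at h
    linarith
  have hw' : conj w ≠ 0 := (map_ne_zero _).2 hw
  have h1 : ((‖w‖ : ℝ) : ℂ) ^ 4 = w ^ 2 * conj w ^ 2 := by
    have h2 : ((‖w‖ : ℝ) : ℂ) ^ 2 = w * conj w := by
      rw [Complex.mul_conj, Complex.normSq_eq_norm_sq]
      push_cast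
      rfl
    calc ((‖w‖ : ℝ) : ℂ) ^ 4 = (((‖w‖ : ℝ) : ℂ) ^ 2) ^ 2 := by ring
      _ = w ^ 2 * conj w ^ 2 := by rw [h2]; ring
  rw [ERD_k, max_eq_left h, h1]
  field_simp

theorem ERD_k_small {ε : ℝ} (hε : 0 < ε) {w : ℂ} (hw : 0 < ‖w‖) : ‖ERD_k ε w‖ ≤ (‖w‖ ^ 2)⁻¹ := by
  rw [ERD_k_norm hε, div_le_iff₀ (pow_pos (ERD_kmax hε w) 4), inv_mul_eq_div,
    le_div_iff₀ (by positivity)]
  have h1 : ‖w‖ ≤ max ‖w‖ ε := le_max_left _ _
  calc ‖w‖ ^ 2 * ‖w‖ ^ 2 ≤ (max ‖w‖ ε) ^ 2 * (max ‖w‖ ε) ^ 2 := by gcongr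
    _ = (max ‖w‖ ε) ^ 4 := by ring

section

variable {φ : ℂ → ℂ} {z₀ : ℂ} {ρ M α : ℝ}

theorem ERD_phi_cont (hα : 0 < α)
    (hH : ∀ z ∈ Metric.ball z₀ ρ, ∀ z' ∈ Metric.ball z₀ ρ, ‖φ z - φ z'‖ ≤ M * ‖z - z'‖ ^ α) :
    ContinuousOn φ (Metric.ball z₀ ρ) := by
  intro z hz
  rw [ContinuousWithinAt, tendsto_iff_norm_sub_tendsto_zero]
  have h1 : Tendsto (fun z' : ℂ => M * ‖z' - z‖ ^ α) (𝓝[Metric.ball z₀ ρ] z) (𝓝 0) := by
    have h2 : Continuous fun z' : ℂ => M * ‖z' - z‖ ^ α :=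
      continuous_const.mul ((continuous_id.sub continuous_const).norm.rpow_const fun _ => Or.inr hα.le)
    have h3 := (h2.tendsto z).mono_left (nhdsWithin_le_nhds (s := Metric.ball z₀ ρ))
    rw [sub_self, norm_zero, Real.zero_rpow hα.ne', mul_zero] at h3
    exact h3
  refine squeeze_zero' (Eventually.of_forall fun _ => norm_nonneg _) ?_ h1
  filter_upwards [self_mem_nhdsWithin] with z' hz'
  exact hH z' hz' z hz

theorem ERD_hol (_hα : 0 < α)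
    (hH : ∀ z ∈ Metric.ball z₀ ρ, ∀ z' ∈ Metric.ball z₀ ρ, ‖φ z - φ z'‖ ≤ M * ‖z - z'‖ ^ α)
    {z ξ : ℂ} (hz : z ∈ Metric.ball z₀ ρ) (hξ : ξ ∈ Metric.ball z₀ ρ) :
    ‖φ ξ - φ z‖ ≤ M * ‖z - ξ‖ ^ α := by
  rw [norm_sub_rev z ξ]
  exact hH ξ hξ z hz

theorem ERD_bd2 (hα : 0 < α) (hM : 0 ≤ M)
    (hH : ∀ z ∈ Metric.ball z₀ ρ, ∀ z' ∈ Metric.ball z₀ ρ, ‖φ z - φ z'‖ ≤ M * ‖z - z'‖ ^ α)
    {z ξ : ℂ} (hz : z ∈ Metric.ball z₀ ρ) (hξ : ξ ∈ Metric.ball z₀ ρ) :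
    ‖(φ ξ - φ z) / (z - ξ) ^ 2‖ ≤ M * ‖z - ξ‖ ^ (-(2 - α)) := by
  rcases eq_or_ne z ξ with rfl | hne
  · rw [sub_self, zero_div, norm_zero]
    positivity
  · have hx : 0 < ‖z - ξ‖ := norm_pos_iff.2 (sub_ne_zero.2 hne)
    rw [norm_div, norm_pow, div_le_iff₀ (by positivity)]
    calc ‖φ ξ - φ z‖ ≤ M * ‖z - ξ‖ ^ α := ERD_hol hα hH hz hξ
      _ = M * ‖z - ξ‖ ^ (-(2 - α)) * ‖z - ξ‖ ^ 2 := by
        rw [mul_assoc, ← Real.rpow_natCast ‖z - ξ‖ 2, ← Real.rpow_add hx]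
        congr 2
        push_cast
        ring

theorem ERD_int2 (hA : EKA_stmt) (hρ : 0 < ρ) (hα : 0 < α) (hα1 : α ≤ 1) (hM : 0 ≤ M)
    (hH : ∀ z ∈ Metric.ball z₀ ρ, ∀ z' ∈ Metric.ball z₀ ρ, ‖φ z - φ z'‖ ≤ M * ‖z - z'‖ ^ α)
    {z : ℂ} (hz : z ∈ Metric.ball z₀ ρ) :
    IntegrableOn (fun ξ => (φ ξ - φ z) / (z - ξ) ^ 2) (Metric.ball z₀ ρ) := by
  obtain ⟨C, hC0, hC⟩ := ERD_pow hA z₀ ρ (2 - α) hρ (by linarith) (by linarith)
  have hφ := (ERD_phi_cont hα hH).aestronglyMeasurable (μ := volume) Metric.isOpen_ball.measurableSet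
  refine Integrable.mono' ((hC z).1.const_mul M) ?_ ?_
  · exact ((hφ.aemeasurable.sub_const _).div
      ((measurable_const.sub measurable_id).pow_const 2).aemeasurable).aestronglyMeasurable
  · refine (ae_restrict_iff' Metric.isOpen_ball.measurableSet).2 (ae_of_all _ fun ξ hξ => ?_)
    exact ERD_bd2 hα hM hH hz hξ

/-- bounded densities -/
theorem ERD_intb (hA : EKA_stmt) (hρ : 0 < ρ) {g : ℂ → ℂ} {K : ℝ}
    (hg : AEStronglyMeasurable g (volume.restrict (Metric.ball z₀ ρ)))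
    (hK : ∀ ξ ∈ Metric.ball z₀ ρ, ‖g ξ‖ ≤ K) (z : ℂ) :
    IntegrableOn (fun ξ => g ξ / (z - ξ)) (Metric.ball z₀ ρ) := by
  obtain ⟨C, hC0, hC⟩ := ERD_pow hA z₀ ρ 1 hρ zero_le_one (by norm_num)
  refine Integrable.mono' ((hC z).1.const_mul K) ?_ ?_
  · exact (hg.aemeasurable.div (measurable_const.sub measurable_id).aemeasurable).aestronglyMeasurable
  · refine (ae_restrict_iff' Metric.isOpen_ball.measurableSet).2 (ae_of_all _ fun ξ hξ => ?_)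
    rw [norm_div, Real.rpow_neg_one, div_eq_mul_inv]
    gcongr
    exact hK ξ hξ

theorem ERD_A_cont (hA : EKA_stmt) (hρ : 0 < ρ) (hα : 0 < α) (hα1 : α ≤ 1) (hM : 0 ≤ M)
    (hb : ∀ z ∈ Metric.ball z₀ ρ, ‖φ z‖ ≤ M)
    (hH : ∀ z ∈ Metric.ball z₀ ρ, ∀ z' ∈ Metric.ball z₀ ρ, ‖φ z - φ z'‖ ≤ M * ‖z - z'‖ ^ α) :
    ContinuousOn (fun z => ∫ ξ in Metric.ball z₀ ρ, (φ ξ - φ z) / (z - ξ) ^ 2)
      (Metric.ball z₀ ρ) := by
  have hms : MeasurableSet (Metric.ball z₀ ρ) := Metric.isOpen_ball.measurableSet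
  have hφc := ERD_phi_cont hα hH
  have hφ := hφc.aestronglyMeasurable (μ := volume) hms
  obtain ⟨C, hC0, hC⟩ := ERD_pow hA z₀ ρ (2 - α / 2) hρ (by linarith) (by linarith)
  have hfin : volume (Metric.ball z₀ ρ) ≠ ⊤ := measure_ball_lt_top.ne
  have hkint : ∀ (ε : ℝ), 0 < ε → ∀ z : ℂ,
      IntegrableOn (fun ξ => φ ξ * ERD_k ε (z - ξ)) (Metric.ball z₀ ρ) ∧
      IntegrableOn (fun ξ => ERD_k ε (z - ξ)) (Metric.ball z₀ ρ) := by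
    intro ε hε z
    have hk : Measurable fun ξ => ERD_k ε (z - ξ) :=
      (ERD_k_cont hε).measurable.comp (measurable_const.sub measurable_id)
    constructor
    · refine Integrable.mono' (g := fun _ => M * (ε ^ 2)⁻¹) (integrableOn_const hfin) ?_ ?_
      · exact (hφ.aemeasurable.mul hk.aemeasurable).aestronglyMeasurable
      · refine (ae_restrict_iff' hms).2 (ae_of_all _ fun ξ hξ => ?_)
        rw [norm_mul]
        exact mul_le_mul (hb ξ hξ) (ERD_k_bd hε _) (norm_nonneg _) hM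
    · refine Integrable.mono' (g := fun _ => (ε ^ 2)⁻¹) (integrableOn_const hfin)
        hk.aestronglyMeasurable (ae_of_all _ fun ξ => ERD_k_bd hε _)
  refine continuousOn_of_uniform_approx_of_continuousOn fun u hu => ?_
  obtain ⟨η, hη, hηu⟩ := Metric.mem_uniformity_dist.1 hu
  obtain ⟨ε, hε, hε2⟩ : ∃ ε : ℝ, 0 < ε ∧ 2 * M * ε ^ (α / 2) * C < η := by
    have h1 : Tendsto (fun ε : ℝ => 2 * M * ε ^ (α / 2) * C) (𝓝[>] 0) (𝓝 0) := by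
      have h2 : Continuous fun ε : ℝ => 2 * M * ε ^ (α / 2) * C :=
        (continuous_const.mul (continuous_id.rpow_const fun _ => Or.inr (by positivity))).mul
          continuous_const
      have h3 := (h2.tendsto 0).mono_left (nhdsWithin_le_nhds (s := Ioi (0 : ℝ)))
      rw [Real.zero_rpow (by positivity), mul_zero, zero_mul] at h3
      exact h3
    obtain ⟨ε, hε⟩ := ((h1.eventually_lt_const hη).and self_mem_nhdsWithin).exists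
    exact ⟨ε, hε.2, hε.1⟩
  refine ⟨fun z => (∫ ξ in Metric.ball z₀ ρ, φ ξ * ERD_k ε (z - ξ)) -
    φ z * ∫ ξ in Metric.ball z₀ ρ, ERD_k ε (z - ξ), ?_, fun z hz => hηu ?_⟩
  · have hc1 : Continuous fun z => ∫ ξ in Metric.ball z₀ ρ, φ ξ * ERD_k ε (z - ξ) := by
      refine continuous_of_dominated (bound := fun _ => M * (ε ^ 2)⁻¹)
        (fun z => (hkint ε hε z).1.aestronglyMeasurable) (fun z => ?_) (integrableOn_const hfin) ?_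
      · refine (ae_restrict_iff' hms).2 (ae_of_all _ fun ξ hξ => ?_)
        rw [norm_mul]
        exact mul_le_mul (hb ξ hξ) (ERD_k_bd hε _) (norm_nonneg _) hM
      · exact ae_of_all _ fun ξ =>
          continuous_const.mul ((ERD_k_cont hε).comp (continuous_id.sub continuous_const))
    have hc2 : Continuous fun z => ∫ ξ in Metric.ball z₀ ρ, ERD_k ε (z - ξ) := by
      refine continuous_of_dominated (bound := fun _ => (ε ^ 2)⁻¹)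
        (fun z => (hkint ε hε z).2.aestronglyMeasurable) (fun z => ?_) (integrableOn_const hfin) ?_
      · exact ae_of_all _ fun ξ => ERD_k_bd hε _
      · exact ae_of_all _ fun ξ => (ERD_k_cont hε).comp (continuous_id.sub continuous_const)
    exact hc1.continuousOn.sub (hφc.mul hc2.continuousOn)
  · rw [dist_eq_norm]
    have h1 : (∫ ξ in Metric.ball z₀ ρ, (φ ξ - φ z) / (z - ξ) ^ 2) -
        ((∫ ξ in Metric.ball z₀ ρ, φ ξ * ERD_k ε (z - ξ)) -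
          φ z * ∫ ξ in Metric.ball z₀ ρ, ERD_k ε (z - ξ)) =
        ∫ ξ in Metric.ball z₀ ρ, ((φ ξ - φ z) / (z - ξ) ^ 2 - (φ ξ - φ z) * ERD_k ε (z - ξ)) := by
      have h2 := hkint ε hε z
      have i2 : IntegrableOn (fun ξ => φ z * ERD_k ε (z - ξ)) (Metric.ball z₀ ρ) := h2.2.const_mul _
      have i1 : IntegrableOn (fun ξ => φ ξ * ERD_k ε (z - ξ) - φ z * ERD_k ε (z - ξ))
        (Metric.ball z₀ ρ) := h2.1.sub i2
      rw [← integral_const_mul, ← integral_sub h2.1 i2,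
        ← integral_sub (ERD_int2 hA hρ hα hα1 hM hH hz) i1]
      refine integral_congr_ae (ae_of_all _ fun ξ => ?_)
      simp only
      ring
    rw [h1]
    refine lt_of_le_of_lt ?_ hε2
    have h3 : ‖∫ ξ in Metric.ball z₀ ρ, ((φ ξ - φ z) / (z - ξ) ^ 2 - (φ ξ - φ z) * ERD_k ε (z - ξ))‖ ≤
        ∫ ξ in Metric.ball z₀ ρ, 2 * M * ε ^ (α / 2) * ‖z - ξ‖ ^ (-(2 - α / 2)) := by
      refine norm_integral_le_of_norm_le ((hC z).1.const_mul _) ?_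
      refine (ae_restrict_iff' hms).2 (ae_of_all _ fun ξ hξ => ?_)
      rcases le_or_gt ε ‖z - ξ‖ with h | h
      · rw [ERD_k_eq hε h, ← div_eq_mul_inv, sub_self, norm_zero]
        positivity
      · rcases eq_or_ne z ξ with rfl | hne
        · rw [sub_self (φ z), zero_div, zero_mul, sub_zero, norm_zero]
          positivity
        · have hx : 0 < ‖z - ξ‖ := norm_pos_iff.2 (sub_ne_zero.2 hne)
          calc ‖(φ ξ - φ z) / (z - ξ) ^ 2 - (φ ξ - φ z) * ERD_k ε (z - ξ)‖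
              ≤ ‖(φ ξ - φ z) / (z - ξ) ^ 2‖ + ‖(φ ξ - φ z) * ERD_k ε (z - ξ)‖ := norm_sub_le _ _
            _ ≤ ‖φ ξ - φ z‖ * (‖z - ξ‖ ^ 2)⁻¹ + ‖φ ξ - φ z‖ * (‖z - ξ‖ ^ 2)⁻¹ := by
              rw [norm_div, norm_pow, norm_mul, div_eq_mul_inv]
              gcongr
              exact ERD_k_small hε hx
            _ = 2 * (‖φ ξ - φ z‖ * (‖z - ξ‖ ^ 2)⁻¹) := by ring
            _ ≤ 2 * ((M * ‖z - ξ‖ ^ α) * (‖z - ξ‖ ^ 2)⁻¹) := by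
              gcongr
              exact ERD_hol hα hH hz hξ
            _ = 2 * M * (‖z - ξ‖ ^ (α / 2) * ‖z - ξ‖ ^ (-(2 - α / 2))) := by
              rw [← Real.rpow_add hx, ← Real.rpow_natCast ‖z - ξ‖ 2, ← Real.rpow_neg hx.le, mul_assoc M,
                ← Real.rpow_add hx, mul_assoc]
              congr 3
              push_cast
              ring
            _ ≤ 2 * M * (ε ^ (α / 2) * ‖z - ξ‖ ^ (-(2 - α / 2))) := by
              gcongr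
            _ = 2 * M * ε ^ (α / 2) * ‖z - ξ‖ ^ (-(2 - α / 2)) := by ring
    refine h3.trans ?_
    rw [integral_const_mul]
    exact mul_le_mul_of_nonneg_left (hC z).2 (by positivity)

/-- the derivative of the Cauchy transform -/
def ERD_L (φ : ℂ → ℂ) (z₀ : ℂ) (ρ : ℝ) (z : ℂ) : ℂ →L[ℝ] ℂ :=
  (-(1 / (Real.pi : ℂ)) * ∫ ξ in Metric.ball z₀ ρ, (φ ξ - φ z) / (z - ξ) ^ 2) •
    (ContinuousLinearMap.id ℝ ℂ) + φ z • (Complex.conjCLE : ℂ →L[ℝ] ℂ)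

theorem ERD_L_apply (φ : ℂ → ℂ) (z₀ : ℂ) (ρ : ℝ) (z v : ℂ) : ERD_L φ z₀ ρ z v =
    -(1 / (Real.pi : ℂ)) * (∫ ξ in Metric.ball z₀ ρ, (φ ξ - φ z) / (z - ξ) ^ 2) * v +
      φ z * conj v := rfl

/-- the elementary inequality -/
theorem ERD_ineq (hB : EKB_stmt) (hα : 0 < α) (hα1 : α ≤ 1) {x y δ : ℝ} (hx : 0 < x) (hy : 0 < y)
    (hδ : 0 ≤ δ) (hδ1 : δ ≤ x + y) : δ ^ 2 * (x⁻¹ * y ^ (α - 2)) ≤
      δ ^ (1 + α / 2) * (2 * (x ^ (-(2 - α / 2)) + y ^ (-(2 - α / 2)))) := by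
  rcases eq_or_lt_of_le hδ with h0 | h0
  · rw [← h0, zero_pow two_ne_zero, zero_mul, Real.zero_rpow (by positivity), zero_mul]
  have h1 : δ ^ 2 = δ ^ (1 + α / 2) * δ ^ (1 - α / 2) := by
    rw [← Real.rpow_add h0, ← Real.rpow_natCast]
    congr 1
    push_cast
    ring
  have h2 : δ ^ (1 - α / 2) ≤ x ^ (1 - α / 2) + y ^ (1 - α / 2) :=
    (Real.rpow_le_rpow hδ hδ1 (by linarith)).trans
      (Real.rpow_add_le_add_rpow hx.le hy.le (by linarith) (by linarith))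
  have h3 : x ^ (1 - α / 2) * (x⁻¹ * y ^ (α - 2)) = x ^ (-(α / 2)) * y ^ (-(2 - α)) := by
    rw [← mul_assoc, ← Real.rpow_neg_one x, ← Real.rpow_add hx]
    congr 2
    · ring
    · ring
  have h4 : y ^ (1 - α / 2) * (x⁻¹ * y ^ (α - 2)) = x ^ (-(1 : ℝ)) * y ^ (-(1 - α / 2)) := by
    rw [mul_left_comm, Real.rpow_neg_one, ← Real.rpow_add hy]
    congr 2
    ring
  have h5 := hB.1 (α / 2) (2 - α) x y (by linarith) (by linarith) hx hy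
  have h6 := hB.1 1 (1 - α / 2) x y (by linarith) (by linarith) hx hy
  have e5 : α / 2 + (2 - α) = 2 - α / 2 := by ring
  have e6 : 1 + (1 - α / 2) = 2 - α / 2 := by ring
  rw [e5] at h5
  rw [e6] at h6
  rw [h1, mul_assoc]
  refine mul_le_mul_of_nonneg_left ?_ (Real.rpow_nonneg hδ _)
  calc δ ^ (1 - α / 2) * (x⁻¹ * y ^ (α - 2))
      ≤ (x ^ (1 - α / 2) + y ^ (1 - α / 2)) * (x⁻¹ * y ^ (α - 2)) := by gcongr
    _ = x ^ (-(α / 2)) * y ^ (-(2 - α)) + x ^ (-(1 : ℝ)) * y ^ (-(1 - α / 2)) := by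
      rw [add_mul, h3, h4]
    _ ≤ 2 * (x ^ (-(2 - α / 2)) + y ^ (-(2 - α / 2))) := by linarith

theorem ERD_rem (hA : EKA_stmt) (hB : EKB_stmt) (hρ : 0 < ρ) (hα : 0 < α) (hα1 : α ≤ 1) (hM : 0 ≤ M)
    (hb : ∀ z ∈ Metric.ball z₀ ρ, ‖φ z‖ ≤ M)
    (hH : ∀ z ∈ Metric.ball z₀ ρ, ∀ z' ∈ Metric.ball z₀ ρ, ‖φ z - φ z'‖ ≤ M * ‖z - z'‖ ^ α)
    {z₁ : ℂ} (hz₁ : z₁ ∈ Metric.ball z₀ ρ) : ∃ C : ℝ, ∀ z ∈ Metric.ball z₀ ρ,
      ‖TC φ (Metric.ball z₀ ρ) z - TC φ (Metric.ball z₀ ρ) z₁ - ERD_L φ z₀ ρ z₁ (z - z₁)‖ ≤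
        C * ‖z - z₁‖ ^ (1 + α / 2) := by
  have hms : MeasurableSet (Metric.ball z₀ ρ) := Metric.isOpen_ball.measurableSet
  have hφ := (ERD_phi_cont hα hH).aestronglyMeasurable (μ := volume) hms
  obtain ⟨C, hC0, hC⟩ := ERD_pow hA z₀ ρ (2 - α / 2) hρ (by linarith) (by linarith)
  refine ⟨(1 / Real.pi) * (M * (2 * (C + C))), fun z hz => ?_⟩
  have hψ : AEStronglyMeasurable (fun ξ => φ ξ - φ z₁) (volume.restrict (Metric.ball z₀ ρ)) :=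
    hφ.sub aestronglyMeasurable_const
  have hψb : ∀ ξ ∈ Metric.ball z₀ ρ, ‖φ ξ - φ z₁‖ ≤ M + M := fun ξ hξ =>
    (norm_sub_le _ _).trans (add_le_add (hb ξ hξ) (hb z₁ hz₁))
  have hTC : ∀ w ∈ Metric.ball z₀ ρ, ∫ ξ in Metric.ball z₀ ρ, φ ξ / (w - ξ) =
      (∫ ξ in Metric.ball z₀ ρ, (φ ξ - φ z₁) / (w - ξ)) + φ z₁ * (Real.pi * conj (w - z₀)) := by
    intro w hw
    rw [← ERD_int hA z₀ w ρ hw, ← integral_const_mul, ← integral_add (ERD_intb hA hρ hψ hψb w)]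
    · refine integral_congr_ae (ae_of_all _ fun ξ => ?_)
      simp only
      ring
    · have h1 := ERD_intb hA hρ (g := fun _ => (1 : ℂ)) (K := 1) (z₀ := z₀) (ρ := ρ)
        aestronglyMeasurable_const (fun _ _ => by simp) w
      simp only [one_div] at h1
      exact h1.const_mul _
  have hpi : (Real.pi : ℂ) ≠ 0 := Complex.ofReal_ne_zero.2 Real.pi_ne_zero
  have hE : TC φ (Metric.ball z₀ ρ) z - TC φ (Metric.ball z₀ ρ) z₁ - ERD_L φ z₀ ρ z₁ (z - z₁) =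
      (1 / (Real.pi : ℂ)) * ∫ ξ in Metric.ball z₀ ρ, ((φ ξ - φ z₁) / (z - ξ) - (φ ξ - φ z₁) / (z₁ - ξ) +
        (z - z₁) * ((φ ξ - φ z₁) / (z₁ - ξ) ^ 2)) := by
    have i1 : IntegrableOn (fun ξ => (φ ξ - φ z₁) / (z - ξ) - (φ ξ - φ z₁) / (z₁ - ξ))
      (Metric.ball z₀ ρ) := (ERD_intb hA hρ hψ hψb z).sub (ERD_intb hA hρ hψ hψb z₁)
    have i2 : IntegrableOn (fun ξ => (z - z₁) * ((φ ξ - φ z₁) / (z₁ - ξ) ^ 2))
      (Metric.ball z₀ ρ) := (ERD_int2 hA hρ hα hα1 hM hH hz₁).const_mul _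
    rw [integral_add i1 i2, integral_sub (ERD_intb hA hρ hψ hψb z)
      (ERD_intb hA hρ hψ hψb z₁), integral_const_mul, ERD_L_apply, TC, TC, hTC z hz, hTC z₁ hz₁]
    simp only [map_sub]
    field_simp
    ring
  rw [hE, norm_mul, norm_div, norm_one, Complex.norm_real, Real.norm_of_nonneg Real.pi_pos.le,
    mul_assoc]
  refine mul_le_mul_of_nonneg_left ?_ (by positivity)
  have hbd : ‖∫ ξ in Metric.ball z₀ ρ, ((φ ξ - φ z₁) / (z - ξ) - (φ ξ - φ z₁) / (z₁ - ξ) +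
        (z - z₁) * ((φ ξ - φ z₁) / (z₁ - ξ) ^ 2))‖ ≤ ∫ ξ in Metric.ball z₀ ρ,
        (M * ‖z - z₁‖ ^ (1 + α / 2) * 2) * (‖z - ξ‖ ^ (-(2 - α / 2)) + ‖z₁ - ξ‖ ^ (-(2 - α / 2))) := by
    refine norm_integral_le_of_norm_le (((hC z).1.add (hC z₁).1).const_mul _) ?_
    have hae : ∀ᵐ ξ : ℂ ∂(volume.restrict (Metric.ball z₀ ρ)), ξ ≠ z ∧ ξ ≠ z₁ :=
      ae_restrict_of_ae ((Measure.ae_ne volume z).and (Measure.ae_ne volume z₁))
    filter_upwards [hae, self_mem_ae_restrict hms] with ξ hξ hξB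
    have ha : z - ξ ≠ 0 := sub_ne_zero.2 hξ.1.symm
    have hb' : z₁ - ξ ≠ 0 := sub_ne_zero.2 hξ.2.symm
    have hx : 0 < ‖z - ξ‖ := norm_pos_iff.2 ha
    have hy : 0 < ‖z₁ - ξ‖ := norm_pos_iff.2 hb'
    have h1 : (φ ξ - φ z₁) / (z - ξ) - (φ ξ - φ z₁) / (z₁ - ξ) +
        (z - z₁) * ((φ ξ - φ z₁) / (z₁ - ξ) ^ 2) =
        (φ ξ - φ z₁) * ((z - z₁) ^ 2 * ((z - ξ)⁻¹ * ((z₁ - ξ) ^ 2)⁻¹)) := by
      field_simp
      ring
    rw [h1, norm_mul, norm_mul, norm_mul, norm_inv, norm_inv, norm_pow, norm_pow]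
    have h2 := ERD_ineq hB hα hα1 hx hy (norm_nonneg (z - z₁)) (by
      calc ‖z - z₁‖ = ‖(z - ξ) - (z₁ - ξ)‖ := by ring_nf
        _ ≤ ‖z - ξ‖ + ‖z₁ - ξ‖ := norm_sub_le _ _)
    have h3 : ‖z₁ - ξ‖ ^ α * (‖z₁ - ξ‖ ^ 2)⁻¹ = ‖z₁ - ξ‖ ^ (α - 2) := by
      rw [← Real.rpow_natCast ‖z₁ - ξ‖ 2, ← Real.rpow_neg hy.le, ← Real.rpow_add hy]
      congr 1
    calc ‖φ ξ - φ z₁‖ * (‖z - z₁‖ ^ 2 * (‖z - ξ‖⁻¹ * (‖z₁ - ξ‖ ^ 2)⁻¹))
        ≤ (M * ‖z₁ - ξ‖ ^ α) * (‖z - z₁‖ ^ 2 * (‖z - ξ‖⁻¹ * (‖z₁ - ξ‖ ^ 2)⁻¹)) := by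
          gcongr
          exact ERD_hol hα hH hz₁ hξB
      _ = M * (‖z - z₁‖ ^ 2 * (‖z - ξ‖⁻¹ * ‖z₁ - ξ‖ ^ (α - 2))) := by
          rw [← h3]
          ring
      _ ≤ M * (‖z - z₁‖ ^ (1 + α / 2) * (2 * (‖z - ξ‖ ^ (-(2 - α / 2)) + ‖z₁ - ξ‖ ^ (-(2 - α / 2))))) := by
          gcongr
      _ = (M * ‖z - z₁‖ ^ (1 + α / 2) * 2) *
          (‖z - ξ‖ ^ (-(2 - α / 2)) + ‖z₁ - ξ‖ ^ (-(2 - α / 2))) := by ring
  refine hbd.trans ?_
  rw [integral_const_mul, integral_add (hC z).1 (hC z₁).1]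
  have h4 : (∫ ξ in Metric.ball z₀ ρ, ‖z - ξ‖ ^ (-(2 - α / 2))) +
      ∫ ξ in Metric.ball z₀ ρ, ‖z₁ - ξ‖ ^ (-(2 - α / 2)) ≤ C + C := add_le_add (hC z).2 (hC z₁).2
  calc (M * ‖z - z₁‖ ^ (1 + α / 2) * 2) * ((∫ ξ in Metric.ball z₀ ρ, ‖z - ξ‖ ^ (-(2 - α / 2))) +
      ∫ ξ in Metric.ball z₀ ρ, ‖z₁ - ξ‖ ^ (-(2 - α / 2)))
      ≤ (M * ‖z - z₁‖ ^ (1 + α / 2) * 2) * (C + C) := by gcongr
    _ = M * (2 * (C + C)) * ‖z - z₁‖ ^ (1 + α / 2) := by ring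

theorem ERD_deriv (hA : EKA_stmt) (hB : EKB_stmt) (hρ : 0 < ρ) (hα : 0 < α) (hα1 : α ≤ 1)
    (hM : 0 ≤ M) (hb : ∀ z ∈ Metric.ball z₀ ρ, ‖φ z‖ ≤ M)
    (hH : ∀ z ∈ Metric.ball z₀ ρ, ∀ z' ∈ Metric.ball z₀ ρ, ‖φ z - φ z'‖ ≤ M * ‖z - z'‖ ^ α)
    {z₁ : ℂ} (hz₁ : z₁ ∈ Metric.ball z₀ ρ) :
    HasFDerivAt (TC φ (Metric.ball z₀ ρ)) (ERD_L φ z₀ ρ z₁) z₁ := by
  obtain ⟨C, hC⟩ := ERD_rem hA hB hρ hα hα1 hM hb hH hz₁
  rw [hasFDerivAt_iff_tendsto]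
  have h1 : Tendsto (fun z : ℂ => C * ‖z - z₁‖ ^ (α / 2)) (𝓝 z₁) (𝓝 0) := by
    have h2 : Continuous fun z : ℂ => C * ‖z - z₁‖ ^ (α / 2) :=
      continuous_const.mul
        ((continuous_id.sub continuous_const).norm.rpow_const fun _ => Or.inr (by positivity))
    have h3 := h2.tendsto z₁
    rw [sub_self, norm_zero, Real.zero_rpow (by positivity), mul_zero] at h3
    exact h3
  refine squeeze_zero' (Eventually.of_forall fun _ => by positivity) ?_ h1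
  filter_upwards [Metric.isOpen_ball.mem_nhds hz₁] with z hz
  rcases eq_or_ne z z₁ with rfl | hne
  · rw [sub_self, norm_zero, _root_.inv_zero, zero_mul, Real.zero_rpow (by positivity), mul_zero]
  · have hx : 0 < ‖z - z₁‖ := norm_pos_iff.2 (sub_ne_zero.2 hne)
    rw [inv_mul_le_iff₀ hx]
    refine (hC z hz).trans (le_of_eq ?_)
    rw [Real.rpow_add hx, Real.rpow_one]
    ring

end

theorem ERD (hA : EKA_stmt) (hB : EKB_stmt) : ERD_stmt := by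
  intro φ z₀ ρ M α hρ hα hα1 hb hH
  have hM : 0 ≤ M := (norm_nonneg _).trans (hb z₀ (Metric.mem_ball_self hρ))
  have hd : ∀ z ∈ Metric.ball z₀ ρ, HasFDerivAt (TC φ (Metric.ball z₀ ρ)) (ERD_L φ z₀ ρ z) z :=
    fun z hz => ERD_deriv hA hB hρ hα hα1 hM hb hH hz
  refine ⟨?_, fun z hz => ?_⟩
  · have h1 : ContDiffOn ℝ (0 + 1) (TC φ (Metric.ball z₀ ρ)) (Metric.ball z₀ ρ) := by
      rw [contDiffOn_succ_iff_fderiv_of_isOpen Metric.isOpen_ball]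
      refine ⟨fun z hz => (hd z hz).differentiableAt.differentiableWithinAt, by simp, ?_⟩
      rw [contDiffOn_zero]
      have h2 : ContinuousOn (ERD_L φ z₀ ρ) (Metric.ball z₀ ρ) := by
        unfold ERD_L
        refine ContinuousOn.add ?_ ?_
        · exact ContinuousOn.smul
            (continuousOn_const.mul (ERD_A_cont hA hρ hα hα1 hM hb hH)) continuousOn_const
        · exact ContinuousOn.smul (ERD_phi_cont hα hH) continuousOn_const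
      exact h2.congr fun z hz => (hd z hz).fderiv
    simpa using h1
  · have hI : (I : ℂ) * I = -1 := Complex.I_mul_I
    rw [dzb, (hd z hz).fderiv, ERD_L_apply, ERD_L_apply, map_one, Complex.conj_I]
    set A := -(1 / (Real.pi : ℂ)) * ∫ ξ in Metric.ball z₀ ρ, (φ ξ - φ z) / (z - ξ) ^ 2
    linear_combination (A / 2 - φ z / 2) * hI

end

end Pool.Agent.DL
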