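import Pool.Agent.helper22.DL.SpecE1

/-! # Project dl, module ERD, part 1: the Cauchy transform of the indicator function of a disc -/

namespace Pool.Agent.DL

open Matrix Complex MeasureTheory Set Filter Topology
open scoped ComplexOrder Manifold ContDiff ComplexConjugate

noncomputable section

/-- power integrals over a ball, uniformly -/
theorem ERD_pow (hA : EKA_stmt) (z₀ : ℂ) (ρ s : ℝ) (hρ : 0 < ρ) (hs0 : 0 ≤ s) (hs2 : s < 2) :
    ∃ C : ℝ, 0 ≤ C ∧ ∀ a : ℂ, IntegrableOn (fun ξ : ℂ => ‖a - ξ‖ ^ (-s)) (Metric.ball z₀ ρ) ∧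
      ∫ ξ in Metric.ball z₀ ρ, ‖a - ξ‖ ^ (-s) ≤ C := by
  obtain ⟨C, hC⟩ := hA s (‖z₀‖ + ρ) hs0 hs2 (by positivity)
  have hsub : Metric.ball z₀ ρ ⊆ Metric.ball 0 (‖z₀‖ + ρ) := by
    intro x hx
    rw [mem_ball_zero_iff]
    rw [mem_ball_iff_norm] at hx
    calc ‖x‖ = ‖z₀ + (x - z₀)‖ := by ring_nf
      _ ≤ ‖z₀‖ + ‖x - z₀‖ := norm_add_le _ _
      _ < ‖z₀‖ + ρ := by linarith
  have hnn : ∀ (a ξ : ℂ), 0 ≤ ‖a - ξ‖ ^ (-s) := fun a ξ => Real.rpow_nonneg (norm_nonneg _) _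
  refine ⟨C, ?_, fun a => ⟨(hC a).1.mono_set hsub, ?_⟩⟩
  · exact (integral_nonneg fun ξ => hnn 0 ξ).trans (hC 0).2
  · exact (setIntegral_mono_set (hC a).1 (ae_of_all _ fun ξ => hnn a ξ)
      (LE.le.eventuallyLE hsub)).trans (hC a).2

theorem ERD_circ (z ξ : ℂ) (h : ‖ξ‖ ≠ ‖z‖) :
    ∫ θ in (0 : ℝ)..2 * Real.pi, (z - circleMap 0 1 θ * ξ)⁻¹ =
      if ‖ξ‖ < ‖z‖ then 2 * Real.pi * z⁻¹ else 0 := by
  have hpi : (2 * Real.pi : ℂ) ≠ 0 := by
    have := Real.pi_ne_zero
    exact_mod_cast (mul_ne_zero two_ne_zero this)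
  have key : ∀ f : ℂ → ℂ, DifferentiableOn ℂ f (Metric.closedBall 0 1) →
      ∫ θ in (0 : ℝ)..2 * Real.pi, f (circleMap 0 1 θ) = 2 * Real.pi * f 0 := by
    intro f hf
    have h1 : DiffContOnCl ℂ f (Metric.ball 0 |1|) := by
      rw [abs_one]
      exact hf.diffContOnCl_ball subset_rfl
    have h2 := h1.circleAverage
    rw [Real.circleAverage_def] at h2
    rw [← h2, Complex.real_smul]
    push_cast
    rw [← mul_assoc, mul_inv_cancel₀ hpi, one_mul]
  split_ifs with hlt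
  · have hz0 : ∀ w ∈ Metric.closedBall (0 : ℂ) 1, z - w * ξ ≠ 0 := by
      intro w hw h0
      rw [mem_closedBall_zero_iff] at hw
      have h1 : ‖z‖ = ‖w‖ * ‖ξ‖ := by rw [← norm_mul, ← sub_eq_zero.1 h0]
      have h2 : ‖w‖ * ‖ξ‖ ≤ 1 * ‖ξ‖ := by gcongr
      linarith
    have h1 := key (fun w => (z - w * ξ)⁻¹) (fun w hw =>
      (((differentiableAt_const z).sub (differentiableAt_id.mul (differentiableAt_const ξ))).inv
        (hz0 w hw)).differentiableWithinAt)
    simp only [zero_mul, sub_zero] at h1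
    exact h1
  · have hlt' : ‖z‖ < ‖ξ‖ := lt_of_le_of_ne (not_lt.1 hlt) (Ne.symm h)
    have hz0 : ∀ w ∈ Metric.closedBall (0 : ℂ) 1, w * conj z - conj ξ ≠ 0 := by
      intro w hw h0
      rw [mem_closedBall_zero_iff] at hw
      have h1 : ‖ξ‖ = ‖w‖ * ‖z‖ := by
        have h2 := congrArg norm (sub_eq_zero.1 h0)
        rw [norm_mul, RCLike.norm_conj, RCLike.norm_conj] at h2
        exact h2.symm
      have h2 : ‖w‖ * ‖z‖ ≤ 1 * ‖z‖ := by gcongr
      linarith
    have h1 := key (fun w => w * (w * conj z - conj ξ)⁻¹) (fun w hw =>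
      (differentiableAt_id.mul (((differentiableAt_id.mul (differentiableAt_const (conj z))).sub
        (differentiableAt_const (conj ξ))).inv (hz0 w hw))).differentiableWithinAt)
    simp only [zero_mul, mul_zero] at h1
    have h2 : ∀ θ : ℝ, circleMap 0 1 θ * (circleMap 0 1 θ * conj z - conj ξ)⁻¹ =
        conj ((z - circleMap 0 1 θ * ξ)⁻¹) := by
      intro θ
      set w := circleMap 0 1 θ with hw
      have hw1 : w * conj w = 1 := by
        rw [Complex.mul_conj, Complex.normSq_eq_norm_sq, hw, norm_circleMap_zero]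
        simp
      have hw0 : w ≠ 0 := by
        intro h0
        rw [h0, zero_mul] at hw1
        exact zero_ne_one hw1
      rw [map_inv₀, map_sub, map_mul]
      have h3 : w * conj z - conj ξ = w * (conj z - conj w * conj ξ) := by
        rw [mul_sub, ← mul_assoc, hw1, one_mul]
      rw [h3, mul_inv, ← mul_assoc, mul_inv_cancel₀ hw0, one_mul]
    simp only [h2] at h1
    rw [intervalIntegral.integral_of_le (by positivity), integral_conj,
      map_eq_zero] at h1
    rw [intervalIntegral.integral_of_le (by positivity)]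
    exact h1

theorem ERD_rot {E : Type} [NormedAddCommGroup E] [NormedSpace ℝ E] (G : ℂ → E) (ρ θ : ℝ) :
    (∫ ξ in Metric.ball (0 : ℂ) ρ, G (circleMap 0 1 θ * ξ) = ∫ ξ in Metric.ball (0 : ℂ) ρ, G ξ) ∧
      (IntegrableOn G (Metric.ball 0 ρ) →
        IntegrableOn (fun ξ => G (circleMap 0 1 θ * ξ)) (Metric.ball 0 ρ)) := by
  have h1 := (rotation (Circle.exp θ)).measurePreserving
  have hemb : MeasurableEmbedding (rotation (Circle.exp θ)) :=
    (rotation (Circle.exp θ)).toHomeomorph.measurableEmbedding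
  have hpre : (rotation (Circle.exp θ)) ⁻¹' (Metric.ball 0 ρ) = Metric.ball 0 ρ := by
    ext x
    simp only [mem_preimage, mem_ball_zero_iff, LinearIsometryEquiv.norm_map]
  have happ : ∀ ξ, rotation (Circle.exp θ) ξ = circleMap 0 1 θ * ξ := by
    intro ξ
    rw [rotation_apply, circleMap]
    simp
  constructor
  · have h2 := h1.setIntegral_preimage_emb hemb G (Metric.ball 0 ρ)
    rw [hpre] at h2
    simp only [happ] at h2
    exact h2
  · intro hG
    have h2 := (h1.integrableOn_comp_preimage hemb (f := G) (s := Metric.ball 0 ρ)).2 hG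
    rw [hpre] at h2
    refine h2.congr_fun (fun ξ _ => ?_) Metric.isOpen_ball.measurableSet
    simp only [Function.comp_apply, happ]

theorem ERD_int1 (hA : EKA_stmt) (z : ℂ) (ρ : ℝ) (hz : ‖z‖ < ρ) :
    ∫ ξ in Metric.ball (0 : ℂ) ρ, (z - ξ)⁻¹ = Real.pi * conj z := by
  classical
  have hρ : 0 < ρ := lt_of_le_of_lt (norm_nonneg _) hz
  obtain ⟨C, hC0, hC⟩ := ERD_pow hA 0 ρ 1 hρ zero_le_one (by norm_num)
  have hmeas : Measurable fun ξ : ℂ => (z - ξ)⁻¹ := (measurable_const.sub measurable_id).inv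
  have hint : IntegrableOn (fun ξ : ℂ => (z - ξ)⁻¹) (Metric.ball 0 ρ) := by
    refine Integrable.mono (hC z).1 hmeas.aestronglyMeasurable (ae_of_all _ fun ξ => ?_)
    rw [norm_inv, Real.rpow_neg_one, norm_inv, norm_norm]
  set F := ∫ ξ in Metric.ball (0 : ℂ) ρ, (z - ξ)⁻¹ with hF
  have hprod : Integrable (Function.uncurry fun (θ : ℝ) (ξ : ℂ) => (z - circleMap 0 1 θ * ξ)⁻¹)
      ((volume.restrict (Set.uIoc 0 (2 * Real.pi))).prod (volume.restrict (Metric.ball 0 ρ))) := by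
    have hm : Measurable (Function.uncurry fun (θ : ℝ) (ξ : ℂ) => (z - circleMap 0 1 θ * ξ)⁻¹) := by
      refine Measurable.inv (measurable_const.sub ?_)
      exact ((continuous_circleMap 0 1).measurable.comp measurable_fst).mul measurable_snd
    rw [integrable_prod_iff hm.aestronglyMeasurable]
    refine ⟨ae_of_all _ fun θ => (ERD_rot (fun ξ => (z - ξ)⁻¹) ρ θ).2 hint, ?_⟩
    have h1 : (fun θ : ℝ => ∫ ξ in Metric.ball (0 : ℂ) ρ, ‖(Function.uncurry fun (θ : ℝ) (ξ : ℂ) =>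
        (z - circleMap 0 1 θ * ξ)⁻¹) (θ, ξ)‖) =
        fun _ => ∫ ξ in Metric.ball (0 : ℂ) ρ, ‖(z - ξ)⁻¹‖ := by
      funext θ
      exact (ERD_rot (fun ξ => ‖(z - ξ)⁻¹‖) ρ θ).1
    rw [h1]
    haveI : IsFiniteMeasure (volume.restrict (Set.uIoc 0 (2 * Real.pi))) := ⟨by
      rw [Measure.restrict_apply_univ, Set.uIoc_of_le (by positivity)]
      exact measure_Ioc_lt_top⟩
    exact integrable_const _
  have hswap := intervalIntegral_integral_swap hprod
  have hL : ∫ θ in (0 : ℝ)..2 * Real.pi, ∫ ξ in Metric.ball (0 : ℂ) ρ, (z - circleMap 0 1 θ * ξ)⁻¹ =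
      2 * Real.pi * F := by
    have h1 : ∀ θ : ℝ, ∫ ξ in Metric.ball (0 : ℂ) ρ, (z - circleMap 0 1 θ * ξ)⁻¹ = F := fun θ =>
      (ERD_rot (fun ξ => (z - ξ)⁻¹) ρ θ).1
    simp only [h1, intervalIntegral.integral_const, sub_zero, Complex.real_smul]
    push_cast
    ring
  have hR : ∫ ξ in Metric.ball (0 : ℂ) ρ, ∫ θ in (0 : ℝ)..2 * Real.pi,
      (z - circleMap 0 1 θ * ξ)⁻¹ = 2 * Real.pi * (Real.pi * conj z) := by
    have h1 : ∫ ξ in Metric.ball (0 : ℂ) ρ, ∫ θ in (0 : ℝ)..2 * Real.pi,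
        (z - circleMap 0 1 θ * ξ)⁻¹ =
        ∫ ξ in Metric.ball (0 : ℂ) ρ, (Metric.ball (0 : ℂ) ‖z‖).indicator
          (fun _ => 2 * Real.pi * z⁻¹) ξ := by
      apply setIntegral_congr_ae Metric.isOpen_ball.measurableSet
      have hsph : ∀ᵐ ξ : ℂ, ξ ∉ Metric.sphere (0 : ℂ) ‖z‖ := by
        rw [← measure_eq_zero_iff_ae_notMem]
        exact Measure.addHaar_sphere _ _ _
      filter_upwards [hsph] with ξ hξ _
      rw [mem_sphere_zero_iff_norm] at hξ
      rw [ERD_circ z ξ hξ, Set.indicator_apply]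
      simp only [mem_ball_zero_iff]
    rw [h1, setIntegral_indicator Metric.isOpen_ball.measurableSet,
      Set.inter_eq_self_of_subset_right (Metric.ball_subset_ball hz.le), setIntegral_const,
      Measure.real, Complex.volume_ball]
    rw [ENNReal.toReal_mul, ENNReal.toReal_pow, ENNReal.toReal_ofReal (norm_nonneg _),
      ENNReal.coe_toReal, NNReal.coe_real_pi, Complex.real_smul]
    rcases eq_or_ne z 0 with rfl | hz0
    · simp
    · have h2 : ((‖z‖ : ℝ) : ℂ) ^ 2 = z * conj z := by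
        rw [Complex.mul_conj, Complex.normSq_eq_norm_sq]
        push_cast
        rfl
      push_cast
      rw [h2]
      field_simp
  have hfin : (2 * Real.pi : ℂ) * F = 2 * Real.pi * (Real.pi * conj z) := by
    rw [← hL, ← hR]
    exact hswap
  have hpi : (2 * Real.pi : ℂ) ≠ 0 := by
    have := Real.pi_ne_zero
    exact_mod_cast (mul_ne_zero two_ne_zero this)
  exact mul_left_cancel₀ hpi hfin

theorem ERD_int (hA : EKA_stmt) (z₀ z : ℂ) (ρ : ℝ) (hz : z ∈ Metric.ball z₀ ρ) :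
    ∫ ξ in Metric.ball z₀ ρ, (z - ξ)⁻¹ = Real.pi * conj (z - z₀) := by
  rw [mem_ball_iff_norm] at hz
  rw [← ERD_int1 hA (z - z₀) ρ hz]
  have h1 := (measurePreserving_add_right (volume : Measure ℂ) z₀).setIntegral_preimage_emb
    (measurableEmbedding_addRight z₀) (fun ξ => (z - ξ)⁻¹) (Metric.ball z₀ ρ)
  have h2 : (fun x : ℂ => x + z₀) ⁻¹' (Metric.ball z₀ ρ) = Metric.ball 0 ρ := by
    ext x
    simp
  rw [h2] at h1
  rw [← h1]
  refine setIntegral_congr_fun Metric.isOpen_ball.measurableSet fun ξ _ => ?_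
  show (z - (ξ + z₀))⁻¹ = (z - z₀ - ξ)⁻¹
  congr 1
  ring

end

end Pool.Agent.DL
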